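import Pool.Agent.Helper32.FR.PScale
import Pool.Agent.Helper50.Dow.Ground

/-!
# Project FR, module Z2: the Dow space of a scale with the relative pseudo-intersection property
-/

set_option autoImplicit false

namespace Pool.Agent.Helper32.FR

open Set Cardinal Filter
open Pool.Agent.Results.MP_743798_lc.NonFrechetBelowB (Node bnum pnum IsBScale U dow I Increasing cone
  N N_finite N_finite_preimage N_append N_pos)
open Pool.Agent.Helper50.Dow

theorem h97_wt_eq (s : Node) : wt s = N s := rfl

theorem h97_wt_replicate (k : ℕ) : wt (List.replicate k 0 : Node) = k := by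
  simp [wt]

theorem h97_finite_iff (p : ℕ → Prop) : {s : Node | p (wt s)}.Finite ↔ {k | p k}.Finite := by
  constructor
  · intro h
    refine (h.image wt).subset ?_
    intro k hk
    refine ⟨List.replicate k 0, ?_, h97_wt_replicate k⟩
    simp only [mem_ofPred_eq]
    rw [h97_wt_replicate]
    exact hk
  · intro h
    exact N_finite_preimage h

theorem h97_robust {φ : I → ℕ → ℕ} (h : PScale φ) : RobustBScale fun x s => φ x (wt s) := by
  refine ⟨fun x => ⟨fun s u hu => ?_, fun s n m hnm => ?_⟩, fun x y => ?_, fun n x => ?_,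
    fun Z hZ g => ?_⟩
  · apply h.mono x
    rw [h97_wt_eq, h97_wt_eq, N_append]
    have := N_pos hu
    omega
  · apply h.mono x
    simp only [wt, List.length_append, List.length_cons, List.length_nil, List.sum_append,
      List.sum_cons, List.sum_nil]
    omega
  · rw [h.le_iff x y]
    exact (h97_finite_iff fun k => ¬ φ x k ≤ φ y k).symm
  · obtain ⟨y, hy, hn⟩ := h.root n x
    exact ⟨y, hy, hn⟩
  · obtain ⟨x, hx⟩ := h.dom fun k => ∑ s ∈ (N_finite k).toFinset, (g s + 1)
    refine ⟨x, fun hfin => hZ ?_⟩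
    refine (hfin.union ((h97_finite_iff fun k =>
      ¬ (∑ s ∈ (N_finite k).toFinset, (g s + 1)) ≤ φ x k).2 hx)).subset ?_
    intro s hs
    by_cases h1 : (∑ s' ∈ (N_finite (wt s)).toFinset, (g s' + 1)) ≤ φ x (wt s)
    · left
      refine ⟨hs, ?_⟩
      have h2 : g s + 1 ≤ ∑ s' ∈ (N_finite (wt s)).toFinset, (g s' + 1) :=
        Finset.single_le_sum (f := fun s' => g s' + 1) (fun _ _ => Nat.zero_le _)
          ((N_finite (wt s)).mem_toFinset.2 (le_refl (N s)))
      omega
    · right
      exact h1

theorem h97_isBScale {e : I → Node → ℕ} (he : RobustBScale e) : IsBScale (Set.range e) := by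
  refine ⟨?_, ?_, ⟨e, rfl, he.le_iff⟩, ?_⟩
  · rintro _ ⟨x, rfl⟩
    exact he.increasing x
  · rintro ⟨g, hg⟩
    obtain ⟨x, hx⟩ := he.unbounded univ infinite_univ g
    apply hx
    refine (hg _ ⟨x, rfl⟩).subset ?_
    rintro s ⟨-, hs⟩
    exact hs
  · rintro n _ ⟨x, rfl⟩
    obtain ⟨y, hy, hn⟩ := he.root n x
    exact ⟨e y, ⟨y, rfl⟩, (he.le_iff x y).1 hy, hn⟩

/-- The sequence. -/
theorem h97_seq {φ : I → ℕ → ℕ} (h : PScale φ) {A : Set Node} {t0 : Node}
    (hcl : ∀ F : Finset I,
      t0 ∈ @closure Node (dow ((fun x (s : Node) => φ x (wt s)) '' F)) A) :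
    ∃ u : ℕ → Node, (∀ n, u n ∈ A) ∧
      ∀ x, Tendsto u atTop (@nhds Node (dow {fun s : Node => φ x (wt s)}) t0) := by
  have he := h97_robust h
  set e : I → Node → ℕ := fun x s => φ x (wt s) with hedef
  by_cases hA : t0 ∈ A
  · refine ⟨fun _ => t0, fun _ => hA, fun x => ?_⟩
    let _ : TopologicalSpace Node := dow {e x}
    exact tendsto_const_nhds
  choose Φ hΦ using exists_low he hA hcl
  obtain ⟨γ, hγ⟩ := exists_closed Φ
  have hlow : ∀ F : Finset I, (∀ x ∈ F, x < γ) → Low e A t0 F γ := fun F hF =>
    (hΦ F).mono he (hγ F hF)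
  obtain ⟨Z, hZ, hZA, hZk, hZx⟩ := h.pi γ
    {s | ∃ a v, s = t0 ++ a :: v ∧ s ∈ A ∧ s.sum < e γ (t0 ++ [a])} t0 (by
      intro F hF K
      obtain ⟨a, v, ha, ⟨hc1, hc2⟩, hsum⟩ := hlow F hF K
      exact ⟨a, v, ha, ⟨a, v, rfl, hc1, hsum⟩, hc2⟩)
  let d := hZ.natEmbedding Z
  let u : ℕ → Node := fun n => (d n).1
  have hinj : Function.Injective u := fun a b hab => d.injective (Subtype.ext hab)
  have huZ : ∀ n, u n ∈ Z := fun n => (d n).2
  have hev : ∀ p : Node → Prop, {s ∈ Z | ¬ p s}.Finite → ∀ᶠ n in atTop, p (u n) := by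
    intro p hp
    have h2 := hp.preimage (f := u) hinj.injOn
    have h3 := h2.compl_mem_cofinite
    rw [Nat.cofinite_eq_atTop] at h3
    filter_upwards [h3] with n hn
    by_contra hc
    exact hn ⟨huZ n, hc⟩
  have hcone : ∀ k, ∀ᶠ n in atTop, u n ∉ cone (t0 ++ [k]) := by
    intro k
    filter_upwards [hev (fun s => ∃ j v, k + 1 ≤ j ∧ s = t0 ++ j :: v) (hZk (k + 1))] with n hn hc
    obtain ⟨j, v, hj, hjv⟩ := hn
    obtain ⟨w, hw⟩ := mem_cone_iff.1 hc
    have : k = j := by
      rw [hjv, List.append_assoc] at hw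
      have := List.append_cancel_left hw
      simp at this
      exact this.1
    omega
  refine ⟨u, fun n => ?_, fun x => ?_⟩
  · obtain ⟨a, v, -, h, -⟩ := hZA (huZ n)
    exact h
  · apply tendsto_dow
    · apply Filter.Eventually.of_forall
      intro n
      obtain ⟨a, v, h, -, -⟩ := hZA (huZ n)
      exact ⟨a :: v, h⟩
    · exact hcone
    · intro ht0
      rcases lt_or_ge x γ with hx | hx
      · exact hev (fun s => s ∈ U (e x)) (hZx x hx ht0)
      · have hfin := (he.le_iff γ x).1 hx
        have hbad : ({e x t0} ∪ (fun s : Node => s.getD t0.length 0) ''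
            {s | ¬ e γ s ≤ e x s}).Finite :=
          (Set.finite_singleton _).union (hfin.image _)
        have h3 := (Filter.eventually_all_finite hbad (l := Filter.atTop)
          (p := fun k n => u n ∉ cone (t0 ++ [k]))).2 (fun k _ => hcone k)
        filter_upwards [h3] with n hn
        obtain ⟨a, v, htv, -, hsum⟩ := hZA (huZ n)
        have hna : a ∉ ({e x t0} ∪ (fun s : Node => s.getD t0.length 0) ''
            {s | ¬ e γ s ≤ e x s}) := by
          intro hc
          apply hn a hc
          rw [htv]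
          exact ⟨v, by simp⟩
        generalize u n = t at *
        intro i hi heq
        rcases lt_trichotomy i t0.length with h | h | h
        · have h4 : t[i] = t0[i] := by
            subst htv
            rw [List.getElem_append_left h]
          have h5 : t.take i = t0.take i := by
            subst htv
            rw [List.take_append_of_le_length h.le]
          rw [h4, h5] at heq
          exact ht0 i h heq
        · subst h
          have h4 : t[t0.length] = a := by
            subst htv
            simp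
          have h5 : t.take t0.length = t0 := by
            subst htv
            simp
          rw [h4, h5] at heq
          exact hna (Or.inl heq)
        · have h4 : t[i] ≤ t.sum := List.single_le_sum (by simp) _ (List.getElem_mem hi)
          have h5 : t0 ++ [a] <+: t.take i := by
            rw [htv, List.prefix_take_iff]
            refine ⟨⟨v, by simp⟩, ?_⟩
            simp; omega
          have h6 := increasing_le (he.increasing γ) h5
          apply hna
          right
          refine ⟨t.take i, ?_, ?_⟩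
          · have h7 : t[i] = e x (t.take i) := heq
            simp only [Set.mem_ofPred_eq]
            omega
          · obtain ⟨w, hw⟩ := h5
            simp only
            rw [← hw]
            simp

/-- FR-Z2 -/
theorem frechet_of_pscale {φ : I → ℕ → ℕ} (h : PScale φ) :
    ∃ B : Set (Node → ℕ), IsBScale B ∧
      (∀ E : Set Node, E.Infinite → ∀ g : Node → ℕ, ∃ f ∈ B, ¬ {s ∈ E | ¬ f s ≤ g s}.Finite) ∧
      @FrechetUrysohnSpace Node (dow B) := by
  have he := h97_robust h
  refine ⟨Set.range fun x (s : Node) => φ x (wt s), h97_isBScale he, ?_, ?_⟩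
  · intro E hE g
    obtain ⟨x, hx⟩ := he.unbounded E hE g
    exact ⟨_, ⟨x, rfl⟩, hx⟩
  · let τ : TopologicalSpace Node := dow (Set.range fun x (s : Node) => φ x (wt s))
    refine @FrechetUrysohnSpace.mk Node τ fun A t0 ht0 => ?_
    obtain ⟨u, huA, hu⟩ := h97_seq h (A := A) (t0 := t0) (by
      intro F
      refine closure.mono ?_ ht0
      apply TopologicalSpace.generateFrom_anti
      apply union_subset_union_right
      rintro V ⟨f, ⟨x, -, rfl⟩, rfl⟩
      exact ⟨_, ⟨x, rfl⟩, rfl⟩)
    refine ⟨u, huA, ?_⟩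
    refine TopologicalSpace.tendsto_nhds_generateFrom_iff.2 ?_
    have hne : Nonempty I := by
      obtain ⟨x, -⟩ := h.dom fun _ => 0
      exact ⟨x⟩
    intro V hV ht
    have key : ∀ x, V ∈ ({V | ∃ s, V = cone s} ∪ {V | ∃ s, V = (cone s)ᶜ} ∪
        {V | ∃ f ∈ ({fun s : Node => φ x (wt s)} : Set (Node → ℕ)), V = U f}) →
        u ⁻¹' V ∈ atTop := fun x hx =>
      TopologicalSpace.tendsto_nhds_generateFrom_iff.1 (hu x) V hx ht
    rcases hV with hV | ⟨f, ⟨x, rfl⟩, rfl⟩
    · exact key hne.some (Or.inl hV)
    · exact key x (Or.inr ⟨_, rfl, rfl⟩)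

end Pool.Agent.Helper32.FR
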