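import Pool.Agent.Helper32.FR.Sent
import Pool.Agent.Helper50.Dow.Ground

/-!
# Project FR, module Z3: the second part of the sentence implies `p < b`
-/

set_option autoImplicit false

namespace Pool.Agent.Helper32.FR

open Set Cardinal Pool.Agent.Helper94.BA
open Pool.Agent.Results.MP_743798_lc.NonFrechetBelowB (Node bnum pnum I)

/-! ### Codes -/

theorem h97_sh_lt {s : ℕ} {x : ℕ → Prop} {n : ℕ} (h : n < s) : sh s x n := Or.inl h

theorem h97_sh_self (s : ℕ) (x : ℕ → Prop) : ¬ sh s x s := by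
  rintro (h | h)
  · exact absurd h (lt_irrefl _)
  · exact absurd h.1 (lt_irrefl _)

theorem h97_sh_add (s : ℕ) (x : ℕ → Prop) (n : ℕ) : sh s x (s + 1 + n) ↔ x n := by
  have h1 : s + 1 + n - s - 1 = n := by omega
  constructor
  · rintro (h | h)
    · omega
    · rw [← h1]; exact h.2
  · intro h
    refine Or.inr ⟨by omega, ?_⟩
    rw [h1]; exact h

theorem h97_sh_inj {s s' : ℕ} {x x' : ℕ → Prop} (h : sh s x = sh s' x') : s = s' ∧ x = x' := by
  have hs : s = s' := by
    rcases lt_trichotomy s s' with h1 | h1 | h1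
    · exact absurd (h ▸ h97_sh_lt h1 : sh s x s) (h97_sh_self s x)
    · exact h1
    · exact absurd (h.symm ▸ h97_sh_lt h1 : sh s' x' s') (h97_sh_self s' x')
  subst hs
  refine ⟨rfl, funext fun n => propext ?_⟩
  rw [← h97_sh_add s x n, ← h97_sh_add s x' n, h]

/-- The code of a function. -/
def h97_code (f : ℕ → ℕ) : ℕ → Prop := fun n => (Nat.unpair n).2 = f (Nat.unpair n).1

theorem h97_fnLe_code (f : ℕ → ℕ) (n k : ℕ) : fnLe (h97_code f) n k ↔ f n ≤ k := by
  constructor
  · rintro (⟨j, hj, hj2⟩ | h)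
    · simp only [h97_code, Nat.unpair_pair] at hj2
      omega
    · exact absurd (by simp [h97_code]) (h (f n))
  · intro h
    exact Or.inl ⟨f n, h, by simp [h97_code]⟩

/-- The function coded by a set. -/
noncomputable def h97_fn (x : ℕ → Prop) (n : ℕ) : ℕ := sInf {k | fnLe x n k}

theorem h97_fnLe_iff (x : ℕ → Prop) (n k : ℕ) : fnLe x n k ↔ h97_fn x n ≤ k := by
  have hne : {k | fnLe x n k}.Nonempty := by
    by_cases h : ∃ j, x (Nat.pair n j)
    · obtain ⟨j, hj⟩ := h
      exact ⟨j, Or.inl ⟨j, le_rfl, hj⟩⟩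
    · push Not at h
      exact ⟨0, Or.inr h⟩
  constructor
  · intro h
    exact Nat.sInf_le h
  · intro h
    rcases (Nat.sInf_mem hne : fnLe x n (h97_fn x n)) with ⟨j, hj, hj2⟩ | h2
    · exact Or.inl ⟨j, hj.trans h, hj2⟩
    · exact Or.inr h2

theorem h97_leStar_iff (x y : ℕ → Prop) :
    LeStar x y ↔ {n | ¬ h97_fn x n ≤ h97_fn y n}.Finite := by
  constructor
  · rintro ⟨m, hm⟩
    refine (Set.finite_lt_nat m).subset fun n hn => ?_
    by_contra hc
    refine hn ?_
    rw [← h97_fnLe_iff]
    exact hm n (not_lt.1 hc) _ ((h97_fnLe_iff _ _ _).2 le_rfl)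
  · intro h
    obtain ⟨m, hm⟩ := h.bddAbove
    refine ⟨m + 1, fun n hn k hk => ?_⟩
    rw [h97_fnLe_iff] at hk ⊢
    by_contra hc
    have : n ≤ m := hm (fun h => hc (h.trans hk))
    omega

theorem h97_fn_code (f : ℕ → ℕ) : h97_fn (h97_code f) = f := by
  funext n
  apply le_antisymm
  · rw [← h97_fnLe_iff, h97_fnLe_code]
  · rw [← h97_fnLe_code, h97_fnLe_iff]

/-- Families of functions over a set `T` are bounded: then `T` has size less than `b`. -/
theorem h97_card_lt {T : Set (ℕ → Prop)}
    (h : ∀ C : Set (ℕ → Prop), ∃ g : ℕ → Prop, ∀ y ∈ T, LeStar (wit C y) g) : #T < bnum := by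
  by_contra hc
  rw [not_lt] at hc
  obtain ⟨F, hF, hunb⟩ := Pool.Agent.Results.MP_743798_lc.NonFrechetBelowB.bnum_mem
  rw [← hF] at hc
  obtain ⟨e⟩ := hc
  obtain ⟨g, hg⟩ := h {z | ∃ f : F, ∃ n, h97_code f.1 n ∧ z = sh n (e f).1}
  obtain ⟨f, hf, hf2⟩ := hunb (h97_fn g)
  apply hf2
  have h1 := hg (e ⟨f, hf⟩).1 (e ⟨f, hf⟩).2
  have h2 : wit {z | ∃ f : F, ∃ n, h97_code f.1 n ∧ z = sh n (e f).1} (e ⟨f, hf⟩).1 =
      h97_code f := by
    funext n
    apply propext
    constructor
    · rintro ⟨f', n', h3, h4⟩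
      obtain ⟨rfl, h5⟩ := h97_sh_inj h4
      have h6 : (⟨f, hf⟩ : F) = f' := e.injective (Subtype.ext h5)
      rw [← h6] at h3
      exact h3
    · intro h3
      exact ⟨⟨f, hf⟩, n, h3, rfl⟩
  rw [h2, h97_leStar_iff, h97_fn_code] at h1
  exact h1

/-- FR-Z3 -/
theorem pnum_lt_bnum (h : SentB univ univ) : pnum < bnum := by
  obtain ⟨T, -, -, hinf, hch, hmax, hC⟩ := h
  have hT : #T < bnum := h97_card_lt fun C => by
    obtain ⟨g, -, hg⟩ := hC C (mem_univ _)
    exact ⟨g, hg⟩
  refine lt_of_le_of_lt ?_ hT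
  -- finite and `Fin'`
  have hfin : ∀ x : ℕ → Prop, Fin' x ↔ {n | x n}.Finite := by
    intro x
    constructor
    · rintro ⟨m, hm⟩
      refine (Set.finite_lt_nat m).subset fun n hn => ?_
      by_contra hc
      exact hm n (not_lt.1 hc) hn
    · intro h
      obtain ⟨m, hm⟩ := h.bddAbove
      exact ⟨m + 1, fun n hn h2 => by have : n ≤ m := hm h2; omega⟩
  have hne : T.Nonempty := by
    obtain ⟨a, ha, -⟩ := hmax (fun _ => True) (mem_univ _) (by
      rintro ⟨m, hm⟩
      exact hm m le_rfl trivial)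
    exact ⟨a, ha⟩
  apply csInf_le'
  refine ⟨T, rfl, ?_, ?_⟩
  · -- every finite subset has an element almost contained in all the others
    intro F hFT hF
    rcases F.eq_empty_or_nonempty with rfl | hFne
    · rw [sInter_empty]
      exact infinite_univ
    have key : ∃ a ∈ F, ∀ b ∈ F, (a \ b : Set ℕ).Finite := by
      clear hC hmax hne
      induction F, hF using Set.Finite.induction_on with
      | empty => exact absurd hFne (by simp)
      | @insert c F hc hF ih =>
        rcases F.eq_empty_or_nonempty with rfl | hF'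
        · refine ⟨c, by simp, ?_⟩
          intro b hb
          simp only [insert_empty_eq, mem_singleton_iff] at hb
          rw [hb, sdiff_self]
          exact finite_empty
        · obtain ⟨a, ha, ha2⟩ := ih (fun x hx => hFT (mem_insert_of_mem _ hx)) hF'
          rcases hch a (hFT (mem_insert_of_mem _ ha)) c (hFT (mem_insert _ _)) with h | h
          · refine ⟨a, mem_insert_of_mem _ ha, ?_⟩
            intro b hb
            rcases mem_insert_iff.1 hb with rfl | hb
            · exact (hfin _).1 h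
            · exact ha2 b hb
          · refine ⟨c, mem_insert _ _, ?_⟩
            intro b hb
            rcases mem_insert_iff.1 hb with rfl | hb
            · rw [sdiff_self]; exact finite_empty
            · refine (((hfin _).1 h).union (ha2 b hb)).subset ?_
              rintro n ⟨h1, h2⟩
              by_cases h3 : n ∈ a
              · exact Or.inr ⟨h3, h2⟩
              · exact Or.inl ⟨h1, h3⟩
    obtain ⟨a, haF, ha⟩ := key
    intro hfi
    have h1 : {n | a n}.Finite := by
      have h2 : (⋃ b ∈ F, (a \ b : Set ℕ)).Finite := hF.biUnion ha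
      refine (h2.union hfi).subset ?_
      intro n hn
      by_cases h3 : n ∈ ⋂₀ F
      · exact Or.inr h3
      · left
        simp only [mem_sInter, not_forall] at h3
        obtain ⟨b, hb, hb2⟩ := h3
        exact mem_biUnion hb ⟨hn, hb2⟩
    exact hinf a (hFT haF) ((hfin _).2 h1)
  · rintro ⟨D, hD, hD2⟩
    obtain ⟨a, ha, ha2⟩ := hmax (fun n => n ∈ D) (mem_univ _) (fun h => hD ((hfin _).1 h))
    exact ha2 ((hfin _).2 (hD2 a ha))

end Pool.Agent.Helper32.FR
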